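import Pool.Agent.W289.CG.Stm

/-! Project CG: abelian group theory. -/

set_option autoImplicit false

namespace Pool.Agent.W240.CG

section add

variable {A : Type} [AddCommGroup A]

/-- the homomorphism from `ZMod n` given by an element killed by `n` -/
noncomputable def hm (n : ℕ) (z : A) (hz : n • z = 0) : ZMod n →+ A :=
  ZMod.lift n ⟨zmultiplesHom A z, by simpa using hz⟩

theorem hm_nat (n : ℕ) (z : A) (hz : n • z = 0) (k : ℕ) : hm n z hz (k : ZMod n) = k • z := by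
  unfold hm
  have h := ZMod.lift_coe n (⟨zmultiplesHom A z, by simpa using hz⟩ :
    { f : ℤ →+ A // f n = 0 }) (k : ℤ)
  rw [Int.cast_natCast] at h
  rw [h]
  simp

theorem hm_val (n : ℕ) [NeZero n] (z : A) (hz : n • z = 0) (x : ZMod n) :
    hm n z hz x = x.val • z := by
  conv_lhs => rw [← ZMod.natCast_zmod_val x]
  exact hm_nat n z hz _

/-- the homomorphism from the power of `ZMod n` -/
noncomputable def hms {ι : Type} [Fintype ι] (n : ℕ) (z : ι → A) (hz : ∀ j, n • z j = 0) :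
    (ι → ZMod n) →+ A :=
  AddMonoidHom.mk' (fun x => ∑ j, hm n (z j) (hz j) (x j)) fun x y => by
    rw [← Finset.sum_add_distrib]
    exact Finset.sum_congr rfl fun j _ => map_add _ _ _

theorem hms_nat {ι : Type} [Fintype ι] (n : ℕ) (z : ι → A) (hz : ∀ j, n • z j = 0)
    (k : ι → ℕ) : hms n z hz (fun j => (k j : ZMod n)) = ∑ j, k j • z j :=
  Finset.sum_congr rfl fun j _ => hm_nat n (z j) (hz j) (k j)

theorem hms_val {ι : Type} [Fintype ι] (n : ℕ) [NeZero n] (z : ι → A) (hz : ∀ j, n • z j = 0)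
    (x : ι → ZMod n) : hms n z hz x = ∑ j, (x j).val • z j :=
  Finset.sum_congr rfl fun j _ => hm_val n (z j) (hz j) (x j)

/-- one prime -/
theorem one (N r R ℓ : ℕ) (hℓ : ℓ.Prime) (hR : R + r ≤ N) (y : Fin N → A)
    (hy : ∀ i, ℓ • y i = 0)
    (h : {e : Fin N → ZMod ℓ | ∑ i, (e i).val • y i = 0}.ncard ≤ ℓ ^ r) :
    ∃ w : Fin R → Fin N → ℕ, ∀ a : Fin R → ℕ, ∑ i, (∑ j, a j * w j i) • y i = 0 →
      ∀ j, ℓ ∣ a j := by
  haveI : Fact ℓ.Prime := ⟨hℓ⟩
  set E : AddSubgroup (Fin N → ZMod ℓ) := (hms ℓ y hy).ker with hE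
  set E' : Submodule (ZMod ℓ) (Fin N → ZMod ℓ) := AddSubgroup.toZModSubmodule ℓ E with hE'
  have hmem : ∀ e : Fin N → ZMod ℓ, e ∈ E' ↔ ∑ i, (e i).val • y i = 0 := by
    intro e
    rw [hE', AddSubgroup.mem_toZModSubmodule, hE, AddMonoidHom.mem_ker, hms_val]
  have hcard : Nat.card E' ≤ ℓ ^ r := by
    refine le_trans (le_of_eq ?_) h
    rw [← Nat.card_coe_set_eq]
    exact Nat.card_congr (Equiv.subtypeEquivRight hmem)
  rw [Module.natCard_eq_pow_finrank (K := ZMod ℓ), Nat.card_zmod] at hcard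
  have hfr : Module.finrank (ZMod ℓ) E' ≤ r := (Nat.pow_le_pow_iff_right hℓ.one_lt).1 hcard
  obtain ⟨W, hW⟩ := Submodule.exists_isCompl E'
  have hdim := Submodule.finrank_add_eq_of_isCompl hW
  rw [Module.finrank_pi, Fintype.card_fin] at hdim
  have hRW : R ≤ Module.finrank (ZMod ℓ) W := by omega
  set b := Module.finBasis (ZMod ℓ) W with hb
  refine ⟨fun j i => ((b (Fin.castLE hRW j) : Fin N → ZMod ℓ) i).val, fun a ha => ?_⟩
  have h1 : hms ℓ y hy (∑ j, ((a j : ℕ) : ZMod ℓ) • (b (Fin.castLE hRW j) : Fin N → ZMod ℓ)) =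
      0 := by
    rw [← ha, ← hms_nat ℓ y hy]
    congr 1
    funext i
    rw [Finset.sum_apply]
    push_cast
    refine Finset.sum_congr rfl fun j _ => ?_
    rw [ZMod.natCast_zmod_val, Pi.smul_apply, smul_eq_mul]
  have h2 : (∑ j, ((a j : ℕ) : ZMod ℓ) • (b (Fin.castLE hRW j) : Fin N → ZMod ℓ)) ∈ E' := h1
  have h3 : (∑ j, ((a j : ℕ) : ZMod ℓ) • (b (Fin.castLE hRW j) : Fin N → ZMod ℓ)) ∈ W :=
    Submodule.sum_mem _ fun j _ => Submodule.smul_mem _ _ (b _).2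
  have h4 := (Submodule.disjoint_def.1 hW.disjoint) _ h2 h3
  have h5 : ∑ j, ((a j : ℕ) : ZMod ℓ) • b (Fin.castLE hRW j) = 0 := by
    apply Subtype.ext
    rw [Submodule.coe_zero, ← h4, Submodule.coe_sum]
    rfl
  have h6 : LinearIndependent (ZMod ℓ) (fun j : Fin R => b (Fin.castLE hRW j)) :=
    b.linearIndependent.comp _ (Fin.castLE_injective hRW)
  intro j
  have h7 := (Fintype.linearIndependent_iff.1 h6) _ h5 j
  exact (ZMod.natCast_eq_zero_iff _ _).1 h7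

theorem grpA (N m r R : ℕ) (hm2 : 2 ≤ m) (hR : R + r ≤ N) (y : Fin N → A)
    (hy : ∀ i, m • y i = 0)
    (h : ∀ ℓ : ℕ, ℓ.Prime → ℓ ∣ m →
      {e : Fin N → ZMod ℓ | ∑ i, (e i).val • ((m / ℓ) • y i) = 0}.ncard ≤ ℓ ^ r) :
    ∃ f : (Fin R → ZMod m) →+ A, Function.Injective f := by
  have hm0 : m ≠ 0 := by omega
  haveI : NeZero m := ⟨hm0⟩
  have h1 : ∀ ℓ : ℕ, ∃ w : Fin R → Fin N → ℕ, ℓ.Prime → ℓ ∣ m → ∀ a : Fin R → ℕ,
      ∑ i, (∑ j, a j * w j i) • ((m / ℓ) • y i) = 0 → ∀ j, ℓ ∣ a j := by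
    intro ℓ
    by_cases hℓ : ℓ.Prime ∧ ℓ ∣ m
    · obtain ⟨w, hw⟩ := one N r R ℓ hℓ.1 hR (fun i => (m / ℓ) • y i)
        (fun i => by rw [← mul_nsmul', Nat.mul_div_cancel' hℓ.2, hy]) (h ℓ hℓ.1 hℓ.2)
      exact ⟨w, fun _ _ => hw⟩
    · exact ⟨0, fun a b => absurd ⟨a, b⟩ hℓ⟩
  choose w hw using h1
  set Y : ℕ → Fin R → A := fun ℓ j => ∑ i, w ℓ j i • y i with hY
  have hYm : ∀ ℓ j, m • Y ℓ j = 0 := by
    intro ℓ j
    simp only [hY]
    rw [Finset.smul_sum]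
    refine Finset.sum_eq_zero fun i _ => ?_
    rw [← mul_nsmul', mul_comm, mul_nsmul', hy, smul_zero]
  set c : ℕ → ℕ := fun ℓ => m / ℓ ^ m.factorization ℓ with hc
  set z : Fin R → A := fun j => ∑ ℓ ∈ m.primeFactors, c ℓ • Y ℓ j with hz
  have hzm : ∀ j, m • z j = 0 := by
    intro j
    simp only [hz]
    rw [Finset.smul_sum]
    refine Finset.sum_eq_zero fun ℓ _ => ?_
    rw [← mul_nsmul', mul_comm, mul_nsmul', hYm, smul_zero]
  refine ⟨hms m z hzm, (injective_iff_map_eq_zero _).2 fun x hx => ?_⟩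
  by_contra hne
  have hmx : m • x = 0 := by
    funext j
    simp
  set d := addOrderOf x with hd
  have hd1 : d ≠ 1 := fun h' => hne (AddMonoid.addOrderOf_eq_one_iff.1 h')
  have hdm : d ∣ m := addOrderOf_dvd_of_nsmul_eq_zero hmx
  set ℓ := d.minFac with hℓ
  have hℓp : ℓ.Prime := Nat.minFac_prime hd1
  have hℓd : ℓ ∣ d := Nat.minFac_dvd d
  have hℓm : ℓ ∣ m := hℓd.trans hdm
  have hd0 : 0 < d := Nat.pos_of_dvd_of_pos hdm (by omega)
  obtain ⟨d', hd'⟩ := hℓd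
  have hd'0 : 0 < d' := by
    rcases Nat.eq_zero_or_pos d' with h' | h'
    · rw [h', mul_zero] at hd'
      omega
    · exact h'
  have hx'0 : d' • x ≠ 0 := by
    intro h'
    have h2 := addOrderOf_dvd_of_nsmul_eq_zero h'
    rw [← hd, hd'] at h2
    have h3 := Nat.le_of_dvd hd'0 h2
    have := hℓp.two_le
    nlinarith
  have hx'ℓ : ℓ • (d' • x) = 0 := by
    rw [← mul_nsmul', ← hd', hd]
    exact addOrderOf_nsmul_eq_zero x
  have hfx' : hms m z hzm (d' • x) = 0 := by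
    rw [map_nsmul, hx, smul_zero]
  obtain ⟨q, hq⟩ := hℓm
  have hq0 : 0 < q := by
    rcases Nat.eq_zero_or_pos q with h' | h'
    · rw [h', mul_zero] at hq
      omega
    · exact h'
  have hmq : m / ℓ = q := by
    conv_lhs => rw [hq]
    exact Nat.mul_div_cancel_left q hℓp.pos
  have ha : ∀ j, ∃ a : ℕ, (d' • x) j = ((q * a : ℕ) : ZMod m) := by
    intro j
    have h2 : ((ℓ * ((d' • x) j).val : ℕ) : ZMod m) = 0 := by
      have h3 := congrFun hx'ℓ j
      rw [Pi.smul_apply, nsmul_eq_mul, Pi.zero_apply] at h3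
      rw [Nat.cast_mul, ZMod.natCast_zmod_val]
      exact h3
    rw [ZMod.natCast_eq_zero_iff] at h2
    have h2' : ℓ * q ∣ ℓ * ((d' • x) j).val := (dvd_of_eq hq.symm).trans h2
    obtain ⟨a, ha⟩ := Nat.dvd_of_mul_dvd_mul_left hℓp.pos h2'
    refine ⟨a, ?_⟩
    rw [← ha, ZMod.natCast_zmod_val]
  choose a ha using ha
  have hcop : Nat.Coprime ℓ (c ℓ) := Nat.coprime_ordCompl hℓp hm0
  have hqz : ∀ j, q • z j = c ℓ • (q • Y ℓ j) := by
    intro j
    simp only [hz]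
    rw [Finset.smul_sum, Finset.sum_eq_single ℓ]
    · rw [← mul_nsmul', ← mul_nsmul', mul_comm]
    · intro ℓ' hℓ' hne'
      have hp' := Nat.prime_of_mem_primeFactors hℓ'
      have h2 : ℓ ∣ c ℓ' := by
        have h3 : ℓ' ^ m.factorization ℓ' * c ℓ' = m := Nat.ordProj_mul_ordCompl_eq_self m ℓ'
        have h4 : ℓ ∣ ℓ' ^ m.factorization ℓ' * c ℓ' := by rw [h3, hq]; exact dvd_mul_right _ _
        refine (Nat.Coprime.dvd_of_dvd_mul_left ?_ h4)
        exact Nat.Coprime.pow_right _ ((Nat.coprime_primes hℓp hp').2 (Ne.symm hne'))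
      obtain ⟨t, ht⟩ := h2
      have h5 : q * c ℓ' = t * m := by
        rw [ht, hq]
        ring
      rw [← mul_nsmul', h5, mul_nsmul', hYm, smul_zero]
    · intro hnot
      exfalso
      apply hnot
      rw [Nat.mem_primeFactors]
      exact ⟨hℓp, ⟨q, hq⟩, hm0⟩
  have hkey : ∑ i, (∑ j, (a j * c ℓ) * w ℓ j i) • ((m / ℓ) • y i) = 0 := by
    have h2 : d' • x = fun j => ((q * a j : ℕ) : ZMod m) := funext ha
    rw [h2, hms_nat] at hfx'
    rw [← hfx', hmq]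
    have h3 : ∀ j, (q * a j) • z j = ∑ i, ((a j * c ℓ) * w ℓ j i) • (q • y i) := by
      intro j
      rw [mul_comm, mul_nsmul', hqz, ← mul_nsmul']
      simp only [hY]
      rw [Finset.smul_sum, Finset.smul_sum]
      refine Finset.sum_congr rfl fun i _ => ?_
      rw [← mul_nsmul', ← mul_nsmul', ← mul_nsmul']
      congr 1
      ring
    simp_rw [h3]
    rw [Finset.sum_comm]
    refine Finset.sum_congr rfl fun i _ => ?_
    rw [Finset.sum_smul]
  have hfin := hw ℓ hℓp ⟨q, hq⟩ (fun j => a j * c ℓ) hkey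
  apply hx'0
  funext j
  have h8 : ℓ ∣ a j := hcop.dvd_of_dvd_mul_right (hfin j)
  obtain ⟨t, ht⟩ := h8
  rw [ha j, ht, Pi.zero_apply, ZMod.natCast_eq_zero_iff]
  refine ⟨t, ?_⟩
  rw [hq]
  ring

end add

theorem grp : Pool.Agent.W289.CG.TaskGrp := by
  intro G _ N m r R hm hR y hy h
  have h1 : ∀ i, m • (Additive.ofMul (y i)) = 0 := by
    intro i
    rw [← ofMul_pow, hy]
    rfl
  obtain ⟨f, hf⟩ := grpA (A := Additive G) N m r R hm hR (fun i => Additive.ofMul (y i)) h1 (by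
    intro ℓ hℓ hℓm
    refine le_trans (le_of_eq ?_) (h ℓ hℓ hℓm)
    congr 1
    ext e
    simp only [Set.mem_ofPred_eq]
    have h2 : ∑ i, (e i).val • ((m / ℓ) • Additive.ofMul (y i)) =
        Additive.ofMul (∏ i, y i ^ ((m / ℓ) * (e i).val)) := by
      rw [ofMul_prod]
      refine Finset.sum_congr rfl fun i _ => ?_
      rw [ofMul_pow, ← mul_nsmul', mul_comm]
    rw [h2]
    exact Iff.rfl)
  refine ⟨AddMonoidHom.toMultiplicativeLeft f, ?_⟩
  exact hf

end Pool.Agent.W240.CG
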