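import Pool.Agent.W289.CG.Stm

/-! Project CG: real roots and real places. -/

set_option autoImplicit false

namespace Pool.Agent.W240.CG

open Polynomial NumberField

/-! ### Real places -/

theorem pl : Pool.Agent.W289.CG.TaskPl := by
  classical
  intro K _ _ f θ hf hθ hgen
  have hf0 : f ≠ 0 := hf.ne_zero
  have hmp := minpoly.eq_of_irreducible hf hθ
  have hlc : f.leadingCoeff ≠ 0 := leadingCoeff_ne_zero.2 hf0
  -- roots of the minimal polynomial
  have hroot : ∀ z : ℂ, aeval z (minpoly ℚ θ) = 0 ↔ aeval z f = 0 := by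
    intro z
    rw [← hmp, map_mul, aeval_C, mul_eq_zero]
    constructor
    · rintro (h | h)
      · exact h
      · exfalso
        simp only [eq_ratCast, Rat.cast_eq_zero, inv_eq_zero] at h
        exact hlc h
    · exact fun h => Or.inl h
  have hadj : Algebra.adjoin ℚ {θ} = ⊤ := by
    rw [← IntermediateField.adjoin_simple_toSubalgebra_of_isAlgebraic
      (Algebra.IsAlgebraic.isAlgebraic θ), hgen, IntermediateField.top_toSubalgebra]
  have huniq : ∀ φ ψ : K →+* ℂ, φ θ = ψ θ → φ = ψ := by
    intro φ ψ h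
    have h1 : φ.toRatAlgHom = ψ.toRatAlgHom := by
      refine AlgHom.ext_of_adjoin_eq_top hadj fun x hx => ?_
      rw [Set.mem_singleton_iff] at hx
      rw [hx]
      exact h
    ext x
    exact DFunLike.congr_fun h1 x
  have hreal : ∀ x : ℝ, aeval x f = 0 ↔ aeval (x : ℂ) f = 0 := by
    intro x
    have h1 : aeval (x : ℂ) f = ((aeval x f : ℝ) : ℂ) := by
      have := (aeval_algebraMap_apply ℂ x f)
      simpa using this
    rw [h1]
    exact_mod_cast Iff.rfl
  rw [← InfinitePlace.card_real_embeddings, ← Nat.card_eq_fintype_card, ← Nat.card_coe_set_eq]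
  refine Nat.card_congr (Equiv.ofBijective (fun φ => ⟨(φ.1 θ).re, ?_⟩) ⟨?_, ?_⟩)
  · have h1 : ((φ.1 θ).re : ℂ) = φ.1 θ := by
      have h2 := RingHom.congr_fun φ.2 θ
      rw [ComplexEmbedding.conjugate_coe_eq] at h2
      exact Complex.conj_eq_iff_re.1 h2
    change aeval (φ.1 θ).re f = 0
    rw [hreal, h1]
    have h3 : aeval (φ.1 θ) f = φ.1 (aeval θ f) := by
      have := (aeval_algHom_apply φ.1.toRatAlgHom θ f)
      exact this
    rw [h3, hθ, map_zero]
  · intro φ ψ h
    have h0 : (φ.1 θ).re = (ψ.1 θ).re := congrArg Subtype.val h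
    have h1 : ((φ.1 θ).re : ℂ) = φ.1 θ := by
      have h2 := RingHom.congr_fun φ.2 θ
      rw [ComplexEmbedding.conjugate_coe_eq] at h2
      exact Complex.conj_eq_iff_re.1 h2
    have h1' : ((ψ.1 θ).re : ℂ) = ψ.1 θ := by
      have h2 := RingHom.congr_fun ψ.2 θ
      rw [ComplexEmbedding.conjugate_coe_eq] at h2
      exact Complex.conj_eq_iff_re.1 h2
    apply Subtype.ext
    apply huniq
    rw [← h1, ← h1', h0]
  · rintro ⟨x, hx⟩
    have hx1 : aeval (x : ℂ) (minpoly ℚ θ) = 0 := (hroot _).2 ((hreal x).1 hx)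
    have hx2 : (x : ℂ) ∈ (minpoly ℚ θ).rootSet ℂ := by
      rw [mem_rootSet]
      exact ⟨minpoly.ne_zero (Algebra.IsIntegral.isIntegral θ), hx1⟩
    rw [← Algebra.IsAlgebraic.range_eval_eq_rootSet_minpoly (F := ℚ) (K := K) (A := ℂ) θ] at hx2
    obtain ⟨ψ, hψ⟩ := hx2
    have hψ' : ψ θ = (x : ℂ) := hψ
    refine ⟨⟨(ψ : K →+* ℂ), ?_⟩, ?_⟩
    · apply huniq
      rw [ComplexEmbedding.conjugate_coe_eq]
      change (starRingEnd ℂ) (ψ θ) = ψ θ
      rw [hψ', Complex.conj_ofReal]
    · apply Subtype.ext
      change (ψ θ).re = x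
      rw [hψ', Complex.ofReal_re]

/-! ### Few real roots -/

theorem real1 : Pool.Agent.W289.CG.TaskReal1 := by
  intro n a hn _
  set M : ℝ := ∑ i, |(a i : ℝ)| with hM
  have hM0 : 0 ≤ M := Finset.sum_nonneg fun i _ => abs_nonneg _
  have haM : ∀ i, |(a i : ℝ)| ≤ M := fun i =>
    Finset.single_le_sum (f := fun i => |(a i : ℝ)|) (fun i _ => abs_nonneg _) (Finset.mem_univ i)
  refine ⟨(2 * M) ^ n, fun v hv => ?_⟩
  have hv0 : 0 < v := lt_of_le_of_lt (by positivity) hv
  -- all solutions are smaller than `-M`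
  have hlt : ∀ x : ℝ, ∏ i, (x - (a i : ℝ)) = -v → x < -M := by
    intro x hx
    by_contra hc
    push Not at hc
    rcases le_or_gt x M with h | h
    · have h1 : |∏ i, (x - (a i : ℝ))| ≤ (2 * M) ^ n := by
        rw [Finset.abs_prod]
        calc ∏ i, |x - (a i : ℝ)| ≤ ∏ _i : Fin n, (2 * M) :=
              Finset.prod_le_prod (fun i _ => abs_nonneg _) fun i _ => by
                have := abs_le.1 (haM i)
                rw [abs_le]
                constructor <;> linarith
          _ = (2 * M) ^ n := by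
              rw [Finset.prod_const, Finset.card_univ, Fintype.card_fin]
      rw [hx, abs_neg, abs_of_pos hv0] at h1
      linarith
    · have h1 : 0 < ∏ i, (x - (a i : ℝ)) := Finset.prod_pos fun i _ => by
        have := (abs_le.1 (haM i)).2
        linarith
      linarith
  set P : ℝ → ℝ := fun x => ∏ i, ((a i : ℝ) - x) with hP
  have hsign : ∀ x : ℝ, ∏ i, (x - (a i : ℝ)) = (-1) ^ n * P x := by
    intro x
    simp only [hP]
    have : ∏ i, (x - (a i : ℝ)) = ∏ i : Fin n, ((-1) * ((a i : ℝ) - x)) :=
      Finset.prod_congr rfl fun i _ => by ring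
    rw [this, Finset.prod_mul_distrib, Finset.prod_const, Finset.card_univ, Fintype.card_fin]
  have hPpos : ∀ x : ℝ, x < -M → 0 < P x := fun x hx => Finset.prod_pos fun i _ => by
    have := (abs_le.1 (haM i)).1
    linarith
  rcases Nat.even_or_odd n with he | ho
  · have h0 : {x : ℝ | ∏ i, (x - (a i : ℝ)) = - v} = ∅ := by
      rw [Set.eq_empty_iff_forall_notMem]
      intro x hx
      have hx' : ∏ i, (x - (a i : ℝ)) = -v := hx
      have h1 := hPpos x (hlt x hx')
      rw [hsign, he.neg_one_pow, one_mul] at hx'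
      linarith
    rw [h0, Set.ncard_empty, Nat.even_iff.1 he]
  · have hcont : Continuous P := by
      simp only [hP]
      fun_prop
    have hanti : ∀ x y : ℝ, x < y → y < -M → P y < P x := by
      intro x y hxy hy
      have hi : ∀ i, (0 : ℝ) < (a i : ℝ) - y := fun i => by
        have := (abs_le.1 (haM i)).1
        linarith
      refine Finset.prod_lt_prod (fun i _ => hi i) (fun i _ => by linarith) ⟨⟨0, by omega⟩,
        Finset.mem_univ _, by linarith⟩
    have hlow : P (-M) < v := by
      refine lt_of_le_of_lt ?_ hv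
      calc P (-M) ≤ ∏ _i : Fin n, (2 * M) :=
            Finset.prod_le_prod (fun i _ => by
              have := (abs_le.1 (haM i)).1
              linarith) fun i _ => by
                have := (abs_le.1 (haM i)).2
                linarith
        _ = (2 * M) ^ n := by
            rw [Finset.prod_const, Finset.card_univ, Fintype.card_fin]
    have hhigh : v ≤ P (-M - 1 - v) := by
      calc v ≤ 1 + v := by linarith
        _ = (1 + v) ^ 1 := (pow_one _).symm
        _ ≤ (1 + v) ^ n := pow_le_pow_right₀ (by linarith) hn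
        _ = ∏ _i : Fin n, (1 + v) := by
            rw [Finset.prod_const, Finset.card_univ, Fintype.card_fin]
        _ ≤ P (-M - 1 - v) := Finset.prod_le_prod (fun i _ => by linarith) fun i _ => by
            have := (abs_le.1 (haM i)).1
            linarith
    obtain ⟨x0, ⟨hx1, hx2⟩, hx3⟩ := intermediate_value_Icc' (by linarith : -M - 1 - v ≤ -M)
      hcont.continuousOn ⟨hlow.le, hhigh⟩
    rw [Nat.odd_iff.1 ho, Set.ncard_eq_one]
    refine ⟨x0, ?_⟩
    have hx0 : x0 < -M := by
      rcases lt_or_eq_of_le hx2 with h | h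
      · exact h
      · rw [h] at hx3
        linarith
    ext x
    simp only [Set.mem_ofPred_eq, Set.mem_singleton_iff]
    constructor
    · intro hx
      have h1 := hlt x hx
      rw [hsign, ho.neg_one_pow] at hx
      have h2 : P x = v := by linarith
      rcases lt_trichotomy x x0 with h | h | h
      · have := hanti x x0 h hx0
        linarith
      · exact h
      · have := hanti x0 x h h1
        linarith
    · intro hx
      rw [hsign, ho.neg_one_pow, hx, hx3]
      ring

/-! ### Only real roots -/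

theorem real2 : Pool.Agent.W289.CG.TaskReal2 := by
  intro n a hn ha v hv0 hv
  set A : ℝ → ℝ := fun x => ∏ i, (x - (a i : ℝ)) with hA
  have hcont : Continuous A := by
    simp only [hA]
    fun_prop
  have hgap : ∀ i l : Fin n, l ≠ i → (1 : ℝ) ≤ |(a i : ℝ) - a l| := by
    intro i l hl
    have h1 : a i - a l ≠ 0 := sub_ne_zero.2 fun h => hl (ha h).symm
    have h2 : 1 ≤ |a i - a l| := Int.one_le_abs h1
    exact_mod_cast h2
  -- sizes at the points `a i ± 1/3`
  have hsize : ∀ i : Fin n, ∀ s : ℝ, |s| = 1 / 3 → v < |A ((a i : ℝ) + s)| := by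
    intro i s hs
    have h1 : (1 / 3 : ℝ) ^ n ≤ |A ((a i : ℝ) + s)| := by
      simp only [hA]
      rw [Finset.abs_prod]
      calc (1 / 3 : ℝ) ^ n = ∏ _l : Fin n, (1 / 3 : ℝ) := by
            rw [Finset.prod_const, Finset.card_univ, Fintype.card_fin]
        _ ≤ ∏ l, |(a i : ℝ) + s - (a l : ℝ)| := by
            refine Finset.prod_le_prod (fun l _ => by norm_num) fun l _ => ?_
            by_cases hl : l = i
            · rw [hl]
              have : (a i : ℝ) + s - (a i : ℝ) = s := by ring
              rw [this, hs]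
            · have h2 := hgap i l hl
              have h3 : |(a i : ℝ) - a l| ≤ |(a i : ℝ) + s - (a l : ℝ)| + |s| := by
                have : (a i : ℝ) - a l = ((a i : ℝ) + s - (a l : ℝ)) + (-s) := by ring
                rw [this, ← abs_neg s]
                exact abs_add_le _ _
              rw [hs] at h3
              linarith
    have h3 : (0 : ℝ) < 3 ^ n := by positivity
    have h4 : v < (1 / 3 : ℝ) ^ n := by
      rw [one_div, inv_pow, lt_inv_comm₀ hv0 h3]
      rw [lt_inv_comm₀ h3 hv0, lt_inv_comm₀ hv0 h3]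
      rw [inv_eq_one_div, lt_div_iff₀ hv0]
      linarith
    linarith
  have hopp : ∀ i : Fin n, A ((a i : ℝ) + -(1 / 3)) * A ((a i : ℝ) + 1 / 3) < 0 := by
    intro i
    simp only [hA]
    rw [← Finset.prod_mul_distrib, ← Finset.mul_prod_erase _ _ (Finset.mem_univ i)]
    refine mul_neg_of_neg_of_pos (by ring_nf; norm_num) (Finset.prod_pos fun l hl => ?_)
    have h2 := hgap i l (Finset.ne_of_mem_erase hl)
    have h3 : (1 : ℝ) ≤ ((a i : ℝ) - a l) ^ 2 := by
      rw [← sq_abs]
      nlinarith
    nlinarith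
  have hroot : ∀ i : Fin n, ∃ x : ℝ, ((a i : ℝ) - 1 / 3 ≤ x ∧ x ≤ (a i : ℝ) + 1 / 3) ∧
      A x = -v := by
    intro i
    have h1 := hsize i (-(1 / 3)) (by rw [abs_neg]; norm_num)
    have h2 := hsize i (1 / 3) (by norm_num)
    have h3 := hopp i
    have h4 : -v ∈ Set.uIcc (A ((a i : ℝ) + -(1 / 3))) (A ((a i : ℝ) + 1 / 3)) := by
      rcases lt_or_ge (A ((a i : ℝ) + -(1 / 3))) 0 with h | h
      · have h5 : 0 < A ((a i : ℝ) + 1 / 3) := by
          by_contra hc
          push Not at hc
          nlinarith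
        rw [abs_of_neg h] at h1
        exact Set.mem_uIcc.2 (Or.inl ⟨by linarith, by linarith⟩)
      · have h5 : A ((a i : ℝ) + 1 / 3) < 0 := by
          by_contra hc
          push Not at hc
          nlinarith
        rw [abs_of_neg h5] at h2
        exact Set.mem_uIcc.2 (Or.inr ⟨by linarith, by linarith⟩)
    obtain ⟨x, hx, hx'⟩ := intermediate_value_uIcc hcont.continuousOn h4
    rw [Set.uIcc_of_le (by linarith)] at hx
    exact ⟨x, ⟨by linarith [hx.1], hx.2⟩, hx'⟩
  choose x hx hxA using hroot
  have hinj : Function.Injective x := by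
    intro i j hij
    by_contra hne
    have h1 := hgap i j (Ne.symm hne)
    have h2 := hx i
    have h3 := hx j
    rw [hij] at h2
    have h4 : |(a i : ℝ) - a j| ≤ 2 / 3 := by
      rw [abs_le]
      constructor <;> linarith
    linarith
  -- the polynomial
  set p : ℝ[X] := (∏ i, (X - C (a i : ℝ))) + C v with hp
  have hdeg : p.natDegree = n := by
    rw [hp, natDegree_add_C, natDegree_prod_of_monic _ _ fun i _ => monic_X_sub_C _,
      Finset.sum_congr rfl fun i _ => natDegree_X_sub_C _, Finset.sum_const, Finset.card_univ,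
      Fintype.card_fin, smul_eq_mul, mul_one]
  have hp0 : p ≠ 0 := by
    intro h
    rw [h, natDegree_zero] at hdeg
    omega
  have hset : {x : ℝ | ∏ i, (x - (a i : ℝ)) = - v} = (p.roots.toFinset : Set ℝ) := by
    ext t
    rw [Finset.mem_coe, Multiset.mem_toFinset, mem_roots hp0, IsRoot.def, hp, eval_add, eval_C,
      eval_prod]
    simp only [eval_sub, eval_X, eval_C, Set.mem_ofPred_eq]
    constructor
    · intro h
      rw [h]
      ring
    · intro h
      linarith
  refine le_antisymm ?_ ?_
  · rw [hset, Set.ncard_coe_finset]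
    calc p.roots.toFinset.card ≤ Multiset.card p.roots := Multiset.toFinset_card_le _
      _ ≤ p.natDegree := card_roots' p
      _ = n := hdeg
  · have hfin : {x : ℝ | ∏ i, (x - (a i : ℝ)) = - v}.Finite := by
      rw [hset]
      exact Finset.finite_toSet _
    have h1 : (Set.range x).ncard = n := by
      rw [← Set.image_univ, Set.ncard_image_of_injective _ hinj, Set.ncard_univ, Nat.card_fin]
    refine le_trans (le_of_eq h1.symm) (Set.ncard_le_ncard ?_ hfin)
    rintro _ ⟨i, rfl⟩
    exact hxA i

end Pool.Agent.W240.CG
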